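import Pool.Agent.Helper23K9.Q3.Tra
import Pool.Agent.Helper23K9.Q5.Crit

/-!
The criterion in terms of the bad points.
-/

set_option autoImplicit false
set_option linter.all false

open Polynomial IsDedekindDomain WeierstrassCurve WeierstrassCurve.Affine
open scoped Classical IntermediateField

namespace Pool.Agent.Helper23K9.Q3

open Pool.Agent.TH115.GD (vInf pl Pt act incl rs ak IsCoc LocTriv Sep Comp IsTower Preserves
  LocallyTrivial act_act vInf_poly)
open Pool.Agent.Helper7K9.T3 (TateAt IsTateClass IsTC IsInv tate_of_part crv3)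
open Pool.Agent.Helper23K9.Q5 (dvd_map_irr sep_map exists_sign qtw)

/-- The polynomial whose roots contain the finite points at which `y² + a x y + b y = x³`
has bad reduction. -/
noncomputable def bad3 {k : Type*} [Field k] (a b : k[X]) : k[X] := b * (a ^ 3 - 27 * b)

theorem bad3_map {k k1 : Type*} [Field k] [Field k1] (f : k →+* k1) (a b : k[X]) :
    (bad3 a b).map f = bad3 (a.map f) (b.map f) := by
  simp only [bad3, Polynomial.map_mul, Polynomial.map_sub, Polynomial.map_pow,
    Polynomial.map_ofNat]

theorem bad3_ne {k : Type*} [Field k] {a b : k[X]} (h : bad3 a b ≠ 0) :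
    b ≠ 0 ∧ a ^ 3 - 27 * b ≠ 0 := mul_ne_zero_iff.1 h

section crit

variable {k k' K F : Type} [Field k] [Field k'] [Algebra k k'] [Field K] [Algebra k[X] K]
    [Field F] [Algebra k'[X] F] [IsFractionRing k'[X] F] [Algebra K F]

/-- The quadratic twist of `y² + a x y + b y = x³` by `c (t - t0)`. -/
noncomputable def twl3 (K : Type) [Field K] [Algebra k[X] K] (a b : k[X]) (c t0 : k) :
    WeierstrassCurve K :=
  qtw (algebraMap k[X] K (C c * (X - C t0))) (crv3 (algebraMap k[X] K a) (algebraMap k[X] K b))

/-- The Tate conjecture at 3, and multiplication by three is bijective on the rational points. -/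
def Tate3 (k' K F : Type) [Field k'] [Field K] [Algebra k[X] K] [Field F] [Algebra k'[X] F]
    [IsFractionRing k'[X] F] [Algebra K F] (a b : k[X]) (c t0 : k) : Prop :=
  TateAt (F := F) 3 k' (twl3 K a b c t0) ∧
    Function.Bijective fun Q : Pt (twl3 K a b c t0) K => 3 • Q

/-- **The criterion for linear quadratic twists.** -/
theorem crit3 (hT : IsTower k k' K F) (h2 : (2 : k) ≠ 0) (h3 : (3 : k) ≠ 0) {a b : k[X]}
    (hbad : bad3 a b ≠ 0)
    (hsep : ∀ π : k[X], Irreducible π → π ∣ bad3 a b → π.Separable) {c t0 : k} (hc : c ≠ 0)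
    {z : k'} (hz : z ^ 2 + z + 1 = 0)
    (hb : ∀ θ : k', θ ≠ algebraMap k k' t0 → aeval θ (bad3 a b) = 0 →
      ∀ x ∈ IntermediateField.adjoin k {z, θ},
        x ^ 2 ≠ algebraMap k k' c * (θ - algebraMap k k' t0)) :
    Tate3 k' K F a b c t0 := by
  haveI := hT.sep
  haveI := hT.fracK
  haveI : IsSepClosed k' := IsSepClosure.sep_closed k
  haveI : IsGalois k k' := inferInstance
  obtain ⟨z0, hz0'⟩ : ∃ z0 : IntermediateField.adjoin k {z}, z0 =
    ⟨z, IntermediateField.mem_adjoin_simple_self k z⟩ := ⟨_, rfl⟩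
  have hz0 : z0 ^ 2 + z0 + 1 = 0 := by
    have h1 : algebraMap (IntermediateField.adjoin k {z}) k' z0 = z := by rw [hz0']; rfl
    apply (algebraMap (IntermediateField.adjoin k {z}) k').injective
    simp only [map_add, map_pow, map_one, map_zero, h1]
    exact hz
  obtain ⟨nb, nd⟩ := bad3_ne hbad
  have hinj := (algebraMap k (IntermediateField.adjoin k {z})).injective
  have nb1 : b.map (algebraMap k (IntermediateField.adjoin k {z})) ≠ 0 :=
    (Polynomial.map_ne_zero_iff hinj).2 nb
  have em : (a.map (algebraMap k (IntermediateField.adjoin k {z}))) ^ 3 -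
      27 * b.map (algebraMap k (IntermediateField.adjoin k {z})) =
      (a ^ 3 - 27 * b).map (algebraMap k (IntermediateField.adjoin k {z})) := by
    simp only [Polynomial.map_mul, Polynomial.map_sub, Polynomial.map_pow, Polynomial.map_ofNat]
  have nd1 : (a.map (algebraMap k (IntermediateField.adjoin k {z}))) ^ 3 -
      27 * b.map (algebraMap k (IntermediateField.adjoin k {z})) ≠ 0 := by
    rw [em]
    exact (Polynomial.map_ne_zero_iff hinj).2 nd
  have key : ∀ q : (IntermediateField.adjoin k {z})[X], Irreducible q →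
      q ∣ (bad3 a b).map (algebraMap k (IntermediateField.adjoin k {z})) → q.Separable :=
    fun q hq hd => sep_map _ hbad hsep hq hd
  have e1 : (bad3 a b).map (algebraMap k (IntermediateField.adjoin k {z})) =
      b.map (algebraMap k (IntermediateField.adjoin k {z})) *
        ((a.map (algebraMap k (IntermediateField.adjoin k {z}))) ^ 3 -
          27 * b.map (algebraMap k (IntermediateField.adjoin k {z}))) := by
    rw [bad3_map, bad3]
  -- automorphisms
  have haut : ∀ ρ : k', ρ ≠ 0 → aeval ((algebraMap k k' c)⁻¹ * ρ ^ 2 + algebraMap k k' t0)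
      (bad3 a b) = 0 → ∃ s0 : k' ≃ₐ[IntermediateField.adjoin k {z}] k', s0 ρ = -ρ := by
    intro ρ hρ hev
    set θ := (algebraMap k k' c)⁻¹ * ρ ^ 2 + algebraMap k k' t0 with hθ
    have hc' : algebraMap k k' c ≠ 0 := (_root_.map_ne_zero _).2 hc
    have e2 : ρ ^ 2 = algebraMap k k' c * (θ - algebraMap k k' t0) := by
      rw [hθ]; field_simp; ring
    have hθt : θ ≠ algebraMap k k' t0 := by
      intro h
      rw [h, sub_self, mul_zero] at e2
      exact hρ (pow_eq_zero_iff (by norm_num) |>.1 e2)
    have h3 := hb θ hθt hev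
    refine exists_sign (θ := θ) ?_ fun hm => h3 ρ hm e2
    rw [e2]
    exact mul_mem (algebraMap_mem _ _) (sub_mem (IntermediateField.subset_adjoin k _ (by simp))
      (algebraMap_mem _ _))
  have hev : ∀ (q : (IntermediateField.adjoin k {z})[X]) (θ : k'),
      q ∣ (bad3 a b).map (algebraMap k (IntermediateField.adjoin k {z})) →
      (q.map (algebraMap (IntermediateField.adjoin k {z}) k')).eval θ = 0 →
      aeval θ (bad3 a b) = 0 := by
    intro q θ hd h0
    obtain ⟨r, hr⟩ := hd
    have h4 : aeval θ (bad3 a b) = ((bad3 a b).map (algebraMap k k')).eval θ := by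
      rw [aeval_def, eval_map]
    rw [h4, IsScalarTower.algebraMap_eq k (IntermediateField.adjoin k {z}) k', ← Polynomial.map_map,
      hr, Polynomial.map_mul, eval_mul, h0, zero_mul]
  have hp1 : b.map (algebraMap k (IntermediateField.adjoin k {z})) ∣
      (bad3 a b).map (algebraMap k (IntermediateField.adjoin k {z})) := by
    rw [e1]; exact dvd_mul_right _ _
  have hp2 : (a.map (algebraMap k (IntermediateField.adjoin k {z}))) ^ 3 -
      27 * b.map (algebraMap k (IntermediateField.adjoin k {z})) ∣
      (bad3 a b).map (algebraMap k (IntermediateField.adjoin k {z})) := by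
    rw [e1]; exact dvd_mul_left _ _
  obtain ⟨r1, r2⟩ := tate_tw3 (k1 := IntermediateField.adjoin k {z}) hT h2 h3 hz0 (pa := a)
    (pb := b) rfl rfl nb1 nd1 (fun q hq hd => key q hq (hd.trans hp1))
    (fun q hq hd => key q hq (hd.trans hp2)) rfl rfl hc rfl
    (fun ρ hρ h0 => haut ρ hρ (hev _ _ hp1 h0)) (fun ρ hρ h0 => haut ρ hρ (hev _ _ hp2 h0))
  exact ⟨r1, (Function.bijective_iff_existsUnique _).2 r2⟩

end crit

end Pool.Agent.Helper23K9.Q3
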