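import Pool.Agent.Helper23K9.Q3.Loc
import Pool.Agent.Helper7K9.T3.Step

/-!
The points of order three of the twist, and cocycles.
-/

set_option autoImplicit false
set_option linter.all false

open Polynomial IsDedekindDomain WeierstrassCurve WeierstrassCurve.Affine
open scoped Classical

namespace Pool.Agent.Helper23K9.Q3

open Pool.Agent.TH115.GD (Pt act incl rs ak act_act act_inj IsCoc rs_mul exists_conj Preserves
  LocallyTrivial lt_subT cob_isCoc Sep)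
open Pool.Agent.Helper7K9.T3 (S0 S0_act ch ch_add ch_inj ch_ne InT isE3 crv3 IsE3 s0_val s0_add s0_neg s0_one
  s0_cube s0_ne s0_inT InT_fix three_act s0 IsTateClass TateAt three_smul)
open Pool.Agent.Helper23K9.Q5

section gp

variable {K F0 Ω : Type} [Field K] [Field F0] [Field Ω] [Algebra K F0] [Algebra F0 Ω] [Algebra K Ω]
  [IsScalarTower K F0 Ω] {a b d : K} (h3 : (3 : K) ≠ 0) (hb : b ≠ 0)
  (hd : a ^ 3 - 27 * b ≠ 0) {z : Ω} (hz : z ^ 2 + z + 1 = 0) (hzK : ∀ φ : Ω →ₐ[K] Ω, φ z = z)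
  (h3r : ∀ x : Ω, ∃ y, y ^ 3 = x)
  (hE : (crv3 a b).Δ ≠ 0) (h2 : (2 : Ω) ≠ 0) {r : Ω} (hr : r ^ 2 = algebraMap K Ω d) (hr0 : r ≠ 0)

/-- The point of `E` which corresponds to a point of the twist. -/
noncomputable def un (X : Pt (qtw d (crv3 a b)) Ω) : Pt (crv3 a b) Ω := (tw hE h2 hr hr0).symm X

theorem un_add (X Y : Pt (qtw d (crv3 a b)) Ω) :
    un hE h2 hr hr0 (X + Y) = un hE h2 hr hr0 X + un hE h2 hr hr0 Y := map_add _ _ _

theorem un_sub (X Y : Pt (qtw d (crv3 a b)) Ω) :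
    un hE h2 hr hr0 (X - Y) = un hE h2 hr hr0 X - un hE h2 hr hr0 Y := map_sub _ _ _

theorem un_zero : un hE h2 hr hr0 0 = 0 := map_zero _

theorem un_inj {X Y : Pt (qtw d (crv3 a b)) Ω} (h : un hE h2 hr hr0 X = un hE h2 hr hr0 Y) :
    X = Y := (tw hE h2 hr hr0).symm.injective h

theorem un_three {X : Pt (qtw d (crv3 a b)) Ω} (h : 3 • X = 0) :
    un hE h2 hr hr0 X + un hE h2 hr hr0 X + un hE h2 hr hr0 X = 0 := by
  rw [← un_add, ← un_add, ← three_smul, h, un_zero]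

theorem un_pos {φ : Ω →ₐ[K] Ω} (hφ : φ r = r) (X : Pt (qtw d (crv3 a b)) Ω) :
    un hE h2 hr hr0 (act (qtw d (crv3 a b)) φ X) = act (crv3 a b) φ (un hE h2 hr hr0 X) := by
  unfold un
  rw [AddEquiv.symm_apply_eq, ← tw_act hE h2 h2 hr hr0 hr hr0 φ hφ, AddEquiv.apply_symm_apply]

theorem un_neg {φ : Ω →ₐ[K] Ω} (hφ : φ r = -r) (X : Pt (qtw d (crv3 a b)) Ω) :
    un hE h2 hr hr0 (act (qtw d (crv3 a b)) φ X) = -act (crv3 a b) φ (un hE h2 hr hr0 X) := by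
  have hr' : (-r) ^ 2 = algebraMap K Ω d := by rw [neg_sq, hr]
  unfold un
  rw [AddEquiv.symm_apply_eq, map_neg, ← tw_neg hE h2 hr hr0 hr' (neg_ne_zero.2 hr0) rfl,
    ← tw_act hE h2 h2 hr hr0 hr' (neg_ne_zero.2 hr0) φ hφ, AddEquiv.apply_symm_apply]

include h3 hb hd hz hzK in
theorem s_act {S : Pt (crv3 a b) Ω} (hS : S + S + S = 0) (φ : Ω →ₐ[K] Ω) :
    S0 a b (act (crv3 a b) φ S) = S0 a b S := by
  rw [S0_act]
  have h := isE3 a b Ω h3 hb hd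
  rcases s0_val h hz hS with ⟨h', -⟩ | ⟨h' | h', -⟩
  · show φ (s0 _ _ S) = s0 _ _ S
    rw [h', map_one]
  · show φ (s0 _ _ S) = s0 _ _ S
    rw [h']; exact hzK φ
  · show φ (s0 _ _ S) = s0 _ _ S
    rw [h', map_pow]
    congr 1
    exact hzK φ

include h3 hb hd hz hzK in
/-- The values of the pairing are fixed. -/
theorem s_fix {S : Pt (crv3 a b) Ω} (hS : S + S + S = 0) (φ : Ω →ₐ[K] Ω) :
    φ (S0 a b S) = S0 a b S := by
  rw [← S0_act]
  exact s_act h3 hb hd hz hzK hS φ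

include h3 hb hd hz h3r in
theorem s_add {S T : Pt (crv3 a b) Ω} (hS : S + S + S = 0) (hT : T + T + T = 0) :
    S0 a b (S + T) = S0 a b S * S0 a b T :=
  s0_add (isE3 a b Ω h3 hb hd) hz h3r hS hT

theorem neg3 {G : Type*} [AddCommGroup G] {S : G} (hS : S + S + S = 0) : -S + -S + -S = 0 := by
  rw [← neg_add, ← neg_add, hS, neg_zero]

theorem add3 {G : Type*} [AddCommGroup G] {S T : G} (hS : S + S + S = 0) (hT : T + T + T = 0) :
    (S + T) + (S + T) + (S + T) = 0 := by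
  have : (S + T) + (S + T) + (S + T) = (S + S + S) + (T + T + T) := by abel
  rw [this, hS, hT, add_zero]

theorem sub3' {G : Type*} [AddCommGroup G] {S T : G} (hS : S + S + S = 0) (hT : T + T + T = 0) :
    (S - T) + (S - T) + (S - T) = 0 := by
  rw [sub_eq_add_neg]
  exact add3 hS (neg3 hT)

include h3 hb hd hz h3r in
theorem s_neg {S : Pt (crv3 a b) Ω} (hS : S + S + S = 0) :
    S0 a b (-S) = (S0 a b S)⁻¹ :=
  eq_inv_of_mul_eq_one_left (s0_neg (isE3 a b Ω h3 hb hd) hz h3r hS)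

include h3 hb hd hz h3r in
theorem s_sub {S T : Pt (crv3 a b) Ω} (hS : S + S + S = 0) (hT : T + T + T = 0) :
    S0 a b (S - T) = S0 a b S * (S0 a b T)⁻¹ := by
  rw [sub_eq_add_neg, s_add h3 hb hd hz h3r hS (neg3 hT), s_neg h3 hb hd hz h3r hT]

include h3 hb hd hz in
theorem s_ne {S : Pt (crv3 a b) Ω} (hS : S + S + S = 0) : S0 a b S ≠ 0 :=
  s0_ne (isE3 a b Ω h3 hb hd) hz hS

include h3 hb hd hz in
theorem s_cube {S : Pt (crv3 a b) Ω} (hS : S + S + S = 0) : S0 a b S ^ 3 = 1 :=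
  s0_cube (isE3 a b Ω h3 hb hd) hz hS

include h3 hb hd hz in
theorem s_one {S : Pt (crv3 a b) Ω} (hS : S + S + S = 0) (h : S0 a b S = 1) :
    InT (isE3 a b Ω h3 hb hd) S := s0_one _ hz hS h

include h3 hb hd hz in
/-- If the pairing is its own inverse. -/
theorem s_self {S : Pt (crv3 a b) Ω} (hS : S + S + S = 0) (h : S0 a b S = (S0 a b S)⁻¹) :
    S0 a b S = 1 := by
  have h1 := s_cube h3 hb hd hz hS
  have h4 := s_ne h3 hb hd hz hS
  have h5 : S0 a b S * S0 a b S = 1 := by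
    nth_rewrite 2 [h]
    exact mul_inv_cancel₀ h4
  linear_combination h1 - S0 a b S * h5

theorem InT.zero_of {W : Affine Ω} {a b : Ω} {h : IsE3 W a b} {Y : W.Point} (hY : Y + Y + Y = 0)
    (e : Y = -Y) : Y = 0 := by
  have h1 : Y + Y = 0 := by nth_rewrite 2 [e]; exact add_neg_cancel Y
  rw [h1, zero_add] at hY
  exact hY

variable (hneg : ∃ τ : Ω ≃ₐ[F0] Ω, τ r = -r)

include h3 hb hd hz hzK h3r hE h2 hr hr0 hneg in
/-- There are no torsion points over `F0`. -/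
theorem no_tor3 (N : ℕ) : ∀ X : Pt (qtw d (crv3 a b)) Ω,
    (∀ σ : Ω ≃ₐ[F0] Ω, act (qtw d (crv3 a b)) (rs K σ) X = X) → 3 ^ N • X = 0 → X = 0 := by
  have base : ∀ X : Pt (qtw d (crv3 a b)) Ω,
    (∀ σ : Ω ≃ₐ[F0] Ω, act (qtw d (crv3 a b)) (rs K σ) X = X) → 3 • X = 0 → X = 0 := by
    intro X hX h0
    obtain ⟨τ, hτ⟩ := hneg
    have hY := un_three hE h2 hr hr0 h0
    have h1 := un_neg hE h2 hr hr0 (φ := rs K τ) hτ X
    rw [hX τ] at h1
    have hY' := three_act (crv3 a b) (rs K τ) hY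
    have h4 : S0 a b (un hE h2 hr hr0 X) = (S0 a b (un hE h2 hr hr0 X))⁻¹ := by
      conv_lhs => rw [h1]
      rw [s_neg h3 hb hd hz h3r hY', s_act h3 hb hd hz hzK hY]
    have h5 := s_one h3 hb hd hz hY (s_self h3 hb hd hz hY h4)
    rw [InT_fix h3 hb hd _ h5] at h1
    have h6 := InT.zero_of (h := isE3 a b Ω h3 hb hd) hY h1
    apply un_inj hE h2 hr hr0
    rw [h6, un_zero]
  induction N with
  | zero =>
    intro X _ h0
    rwa [pow_zero, one_smul] at h0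
  | succ N ih =>
    intro X hX h0
    exact base X hX (ih (3 • X) (fun σ => by rw [map_nsmul, hX σ])
      (by rw [smul_smul, ← pow_succ]; exact h0))

include h3 hb hd hz hzK h3r hE h2 hr hr0 hneg in
/-- The invariance of a class. -/
theorem inv3 [IsSepClosed Ω] [IsGalois F0 Ω] (hpres : Preserves K F0 Ω)
    {f : (Ω ≃ₐ[F0] Ω) → Pt (qtw d (crv3 a b)) Ω} (hf3 : ∀ σ, 3 • f σ = 0) (τ : Ω ≃ₐ[K] Ω)
    {Q : Pt (qtw d (crv3 a b)) Ω} {N : ℕ} (hN : 3 ^ N • Q = 0)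
    (hrel : ∀ σ σ' : Ω ≃ₐ[F0] Ω, (∀ x, τ (σ' x) = σ (τ x)) →
        act (qtw d (crv3 a b)) (ak τ) (f σ') - f σ = act (qtw d (crv3 a b)) (rs K σ) Q - Q) :
    3 • Q = 0 := by
  apply no_tor3 h3 hb hd hz hzK h3r hE h2 hr hr0 hneg N (3 • Q)
  · intro σ
    obtain ⟨σ', hσ'⟩ := exists_conj hpres τ σ
    have h1 := hrel σ σ' hσ'
    have h3 : 3 • (act (qtw d (crv3 a b)) (rs K σ) Q - Q) = 0 := by
      rw [← h1, smul_sub, ← map_nsmul, hf3, hf3, map_zero, sub_zero]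
    rw [smul_sub, sub_eq_zero, ← map_nsmul] at h3
    exact h3
  · rw [smul_comm, hN, smul_zero]

include h3 hb hd hz hzK h3r hE h2 hr hr0 in
/-- The first character is inverted. -/
theorem first_inv {f : (Ω ≃ₐ[F0] Ω) → Pt (qtw d (crv3 a b)) Ω} (hf3 : ∀ σ, 3 • f σ = 0)
    {τ : Ω ≃ₐ[K] Ω} (hτ : τ r = -r) {Q : Pt (qtw d (crv3 a b)) Ω} (hQ : 3 • Q = 0)
    {σ σ' : Ω ≃ₐ[F0] Ω} (hσ : σ r = r)
    (hrel : act (qtw d (crv3 a b)) (ak τ) (f σ') - f σ = act (qtw d (crv3 a b)) (rs K σ) Q - Q) :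
    S0 a b (un hE h2 hr hr0 (f σ')) = (S0 a b (un hE h2 hr hr0 (f σ)))⁻¹ := by
  have hY := un_three hE h2 hr hr0 hQ
  have h1 := congrArg (un hE h2 hr hr0) hrel
  rw [un_sub, un_sub, un_neg hE h2 hr hr0 (φ := ak τ) hτ, un_pos hE h2 hr hr0 (φ := rs K σ) hσ]
    at h1
  have g1 := un_three hE h2 hr hr0 (hf3 σ)
  have g2 := un_three hE h2 hr hr0 (hf3 σ')
  have h4 := congrArg (S0 a b) h1
  rw [s_sub h3 hb hd hz h3r (neg3 (three_act _ _ g2)) g1, s_neg h3 hb hd hz h3r (three_act _ _ g2),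
    s_act h3 hb hd hz hzK g2, s_sub h3 hb hd hz h3r (three_act _ _ hY) hY,
    s_act h3 hb hd hz hzK hY, mul_inv_cancel₀ (s_ne h3 hb hd hz hY)] at h4
  have n1 := s_ne h3 hb hd hz g1
  have n2 := s_ne h3 hb hd hz g2
  field_simp at h4 ⊢
  linear_combination -h4

include h3 hb hd hz hzK h3r hE h2 hr hr0 in
/-- The first step: after subtraction of a coboundary the values are multiples of `(0, 0)`. -/
theorem first_cob [IsGalois F0 Ω] {f : (Ω ≃ₐ[F0] Ω) → Pt (qtw d (crv3 a b)) Ω} (hf : IsCoc (qtw d (crv3 a b)) f)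
    (hf3 : ∀ σ, 3 • f σ = 0)
    (h1 : ∀ σ : Ω ≃ₐ[F0] Ω, σ r = r → S0 a b (un hE h2 hr hr0 (f σ)) = 1)
    {τ : Ω ≃ₐ[F0] Ω} (hτ : τ r = -r) (σ : Ω ≃ₐ[F0] Ω) :
    InT (isE3 a b Ω h3 hb hd) (un hE h2 hr hr0
      (f σ - (act (qtw d (crv3 a b)) (rs K σ) (f τ) - f τ))) := by
  have gt := un_three hE h2 hr hr0 (hf3 τ)
  -- the case of automorphisms which fix `r`
  have key : ∀ σ : Ω ≃ₐ[F0] Ω, σ r = r → S0 a b (un hE h2 hr hr0
      (f σ - (act (qtw d (crv3 a b)) (rs K σ) (f τ) - f τ))) = 1 := by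
    intro σ hσ
    have g1 := un_three hE h2 hr hr0 (hf3 σ)
    rw [un_sub, un_sub, un_pos hE h2 hr hr0 (φ := rs K σ) hσ,
      s_sub h3 hb hd hz h3r g1 (sub3' (three_act _ _ gt) gt), h1 σ hσ,
      s_sub h3 hb hd hz h3r (three_act _ _ gt) gt, s_act h3 hb hd hz hzK gt,
      mul_inv_cancel₀ (s_ne h3 hb hd hz gt)]
    norm_num
  have h3f : ∀ σ : Ω ≃ₐ[F0] Ω, 3 • (f σ - (act (qtw d (crv3 a b)) (rs K σ) (f τ) - f τ)) = 0 := by
    intro σ
    rw [smul_sub, smul_sub, ← map_nsmul, hf3, hf3, map_zero, sub_zero, sub_zero]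
  apply s_one h3 hb hd hz (un_three hE h2 hr hr0 (h3f σ))
  have hpm : σ r = r ∨ σ r = -r := by
    apply sq_eq_sq_iff_eq_or_eq_neg.1
    rw [← map_pow, hr]
    exact (rs K σ).commutes d
  rcases hpm with hσ | hσ
  · exact key σ hσ
  · have hc := hf.sub _ (cob_isCoc (qtw d (crv3 a b)) (F := F0) (f τ))
    have h4 : (τ⁻¹ * σ) r = r := by
      rw [AlgEquiv.mul_apply, hσ, ← hτ, ← AlgEquiv.mul_apply, inv_mul_cancel, AlgEquiv.one_apply]
    have h5 := hc.mul τ (τ⁻¹ * σ)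
    rw [mul_inv_cancel_left] at h5
    have g1 := un_three hE h2 hr hr0 (h3f τ)
    have g2 := un_three hE h2 hr hr0 (h3f (τ⁻¹ * σ))
    have h6 : un hE h2 hr hr0 (f σ - (act (qtw d (crv3 a b)) (rs K σ) (f τ) - f τ)) =
        un hE h2 hr hr0 (f τ - (act (qtw d (crv3 a b)) (rs K τ) (f τ) - f τ)) +
        -act (crv3 a b) (rs K τ) (un hE h2 hr hr0 (f (τ⁻¹ * σ) -
          (act (qtw d (crv3 a b)) (rs K (τ⁻¹ * σ)) (f τ) - f τ))) := by
      rw [← un_neg hE h2 hr hr0 (φ := rs K τ) hτ, ← un_add]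
      exact congrArg _ h5
    rw [h6, s_add h3 hb hd hz h3r g1 (neg3 (three_act _ _ g2)),
      s_neg h3 hb hd hz h3r (three_act _ _ g2), s_act h3 hb hd hz hzK g2, key _ h4, inv_one, mul_one,
      un_sub, un_sub, un_neg hE h2 hr hr0 (φ := rs K τ) hτ,
      s_sub h3 hb hd hz h3r gt (sub3' (neg3 (three_act _ _ gt)) gt),
      s_sub h3 hb hd hz h3r (neg3 (three_act _ _ gt)) gt,
      s_neg h3 hb hd hz h3r (three_act _ _ gt), s_act h3 hb hd hz hzK gt]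
    have n1 := s_ne h3 hb hd hz gt
    have n2 := s_cube h3 hb hd hz gt
    field_simp
    linear_combination n2

include h3 hb hd hz hzK h3r hE h2 hr hr0 in
/-- The second character is inverted. -/
theorem second_inv {f : (Ω ≃ₐ[F0] Ω) → Pt (qtw d (crv3 a b)) Ω}
    (hfI : ∀ σ, InT (isE3 a b Ω h3 hb hd) (un hE h2 hr hr0 (f σ)))
    {τ1 τ1' : Ω ≃ₐ[F0] Ω} (hτ1 : τ1 r = -r)
    {τ : Ω ≃ₐ[K] Ω} (hτ : τ r = -r) {Q : Pt (qtw d (crv3 a b)) Ω} (hQ : 3 • Q = 0)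
    (hrel1 : act (qtw d (crv3 a b)) (ak τ) (f τ1') - f τ1 =
      act (qtw d (crv3 a b)) (rs K τ1) Q - Q)
    {σ σ' : Ω ≃ₐ[F0] Ω} (hσ : σ r = r)
    (hrel : act (qtw d (crv3 a b)) (ak τ) (f σ') - f σ = act (qtw d (crv3 a b)) (rs K σ) Q - Q) :
    un hE h2 hr hr0 (f σ') = -un hE h2 hr hr0 (f σ) := by
  have h := isE3 a b Ω h3 hb hd
  have hY := un_three hE h2 hr hr0 hQ
  have hI : InT h (un hE h2 hr hr0 Q) := by
    apply s_one h3 hb hd hz hY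
    apply s_self h3 hb hd hz hY
    have h1 := congrArg (un hE h2 hr hr0) hrel1
    rw [un_sub, un_sub, un_neg hE h2 hr hr0 (φ := ak τ) hτ,
      un_neg hE h2 hr hr0 (φ := rs K τ1) hτ1] at h1
    have g1 := (hfI τ1).three h
    have g2 := (hfI τ1').three h
    have h4 := congrArg (S0 a b) h1
    rw [s_sub h3 hb hd hz h3r (neg3 (three_act _ _ g2)) g1,
      s_neg h3 hb hd hz h3r (three_act _ _ g2), s_act h3 hb hd hz hzK g2,
      s_sub h3 hb hd hz h3r (neg3 (three_act _ _ hY)) hY,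
      s_neg h3 hb hd hz h3r (three_act _ _ hY), s_act h3 hb hd hz hzK hY] at h4
    have e1 : S0 a b (un hE h2 hr hr0 (f τ1)) = 1 := s0_inT h (hfI τ1)
    have e2 : S0 a b (un hE h2 hr hr0 (f τ1')) = 1 := s0_inT h (hfI τ1')
    rw [e1, e2] at h4
    have n1 := s_ne h3 hb hd hz hY
    field_simp at h4 ⊢
    linear_combination h4
  have h1 := congrArg (un hE h2 hr hr0) hrel
  rw [un_sub, un_sub, un_neg hE h2 hr hr0 (φ := ak τ) hτ, un_pos hE h2 hr hr0 (φ := rs K σ) hσ,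
    InT_fix h3 hb hd _ hI, InT_fix h3 hb hd _ (hfI σ'), sub_self, sub_eq_zero] at h1
  rw [← h1, neg_neg]

include h3 hb hd hr in
/-- The second step: a coboundary. -/
theorem second_cob {f : (Ω ≃ₐ[F0] Ω) → Pt (qtw d (crv3 a b)) Ω} (hf : IsCoc (qtw d (crv3 a b)) f)
    (hfI : ∀ σ, InT (isE3 a b Ω h3 hb hd) (un hE h2 hr hr0 (f σ)))
    (h1 : ∀ σ : Ω ≃ₐ[F0] Ω, σ r = r → f σ = 0)
    {τ : Ω ≃ₐ[F0] Ω} (hτ : τ r = -r) (σ : Ω ≃ₐ[F0] Ω) :
    f σ = act (qtw d (crv3 a b)) (rs K σ) (f τ) - f τ := by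
  have h := isE3 a b Ω h3 hb hd
  have hpm : σ r = r ∨ σ r = -r := by
    apply sq_eq_sq_iff_eq_or_eq_neg.1
    rw [← map_pow, hr]
    exact (rs K σ).commutes d
  apply un_inj hE h2 hr hr0
  rcases hpm with hσ | hσ
  · rw [h1 σ hσ, un_sub, un_pos hE h2 hr hr0 (φ := rs K σ) hσ, InT_fix h3 hb hd _ (hfI τ), sub_self,
      un_zero]
  · have h4 : (τ⁻¹ * σ) r = r := by
      rw [AlgEquiv.mul_apply, hσ, ← hτ, ← AlgEquiv.mul_apply, inv_mul_cancel, AlgEquiv.one_apply]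
    have h5 := hf.mul τ (τ⁻¹ * σ)
    rw [mul_inv_cancel_left, h1 _ h4, map_zero, add_zero] at h5
    rw [h5, un_sub, un_neg hE h2 hr hr0 (φ := rs K σ) hσ, InT_fix h3 hb hd _ (hfI τ)]
    have h6 := (hfI τ).three h
    rw [← sub_eq_zero]
    have : un hE h2 hr hr0 (f τ) - (-un hE h2 hr hr0 (f τ) - un hE h2 hr hr0 (f τ)) =
      un hE h2 hr hr0 (f τ) + un hE h2 hr hr0 (f τ) + un hE h2 hr hr0 (f τ) := by abel
    rw [this, h6]

end gp

end Pool.Agent.Helper23K9.Q3
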