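import Pool.Agent.Helper23K9.Q5.Van
import Pool.Agent.Helper7K9.T3.Ord

/-!
Cubic characters on which an automorphism acts by the sign.
-/

set_option autoImplicit false
set_option linter.all false

open Polynomial IsDedekindDomain
open scoped Classical

namespace Pool.Agent.Helper23K9.Q3

open Pool.Agent.TH115.GD (pl cm cm_mem cm_val Preserves exists_conj exists_root_of_mem splits_of_sep
  mem_pl)
open Pool.Agent.Helper7K9.T3 (om om_mul om_pow om_one om_cube om_C cube_F)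
open Pool.Agent.Helper23K9.Q5

section kill

variable {k' F : Type} [Field k'] [Field F] [Algebra k'[X] F] [IsFractionRing k'[X] F]

theorem om_aut {e : k'[X] ≃+* k'[X]} {σ : F →+* F}
    (hσ : ∀ p : k'[X], σ (algebraMap k'[X] F p) = algebraMap k'[X] F (e p))
    (w : HeightOneSpectrum k'[X]) (x : F) : om (cm e w) x = om w (σ x) := by
  unfold om
  rw [cm_val e hσ]

variable {K Ω : Type} [Field K] [Field Ω] [Algebra K F] [Algebra F Ω] [Algebra K Ω]
  [IsScalarTower K F Ω]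

theorem om_gal {e : k'[X] ≃+* k'[X]} {τ : Ω ≃ₐ[K] Ω} (hs : ∀ p : k'[X],
      τ (algebraMap F Ω (algebraMap k'[X] F p)) = algebraMap F Ω (algebraMap k'[X] F (e p)))
    {x y : F} (hxy : τ (algebraMap F Ω x) = algebraMap F Ω y) (w : HeightOneSpectrum k'[X]) :
    om (cm e w) x = om w y := by
  let σ : F ≃+* F := IsFractionRing.ringEquivOfRingEquiv (A := k'[X]) (B := k'[X]) e
  have hσ : ∀ p : k'[X], σ (algebraMap k'[X] F p) = algebraMap k'[X] F (e p) := fun p =>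
    IsFractionRing.ringEquivOfRingEquiv_algebraMap _ p
  have h1 : ∀ x : F, τ (algebraMap F Ω x) = algebraMap F Ω (σ x) := by
    intro x
    obtain ⟨n, d, hd, rfl⟩ := IsFractionRing.div_surjective (A := k'[X]) x
    rw [map_div₀, map_div₀, hs, hs, map_div₀, hσ, hσ, map_div₀]
  have h2 : y = σ x := by
    apply (algebraMap F Ω).injective
    rw [← hxy, h1]
  rw [h2]
  exact om_aut (σ := (σ : F →+* F)) hσ w x

/-- Kummer data of a cubic character. -/
structure K3 (χ : (Ω ≃ₐ[F] Ω) → Ω) (t : Ω) (a0 : F) : Prop where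
  ne : t ≠ 0
  cube : t ^ 3 = algebraMap F Ω a0
  act : ∀ σ, σ t = χ σ * t

theorem K3.fne {χ : (Ω ≃ₐ[F] Ω) → Ω} {t : Ω} {a0 : F} (h : K3 χ t a0) : a0 ≠ 0 := by
  rintro rfl
  have := h.cube
  rw [map_zero] at this
  exact pow_ne_zero 3 h.ne this

/-- If the character is inverted by an automorphism. -/
theorem kill [IsSepClosed Ω] [IsGalois F Ω] (hpres : Preserves K F Ω) {χ : (Ω ≃ₐ[F] Ω) → Ω} {t : Ω} {a0 : F}
    (h : K3 χ t a0) {τ : Ω ≃ₐ[K] Ω} (hτ : ∀ σ, τ (χ σ) = χ σ) (hχ0 : ∀ σ, χ σ ≠ 0)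
    {e : k'[X] ≃+* k'[X]} (hs : ∀ p : k'[X],
      τ (algebraMap F Ω (algebraMap k'[X] F p)) = algebraMap F Ω (algebraMap k'[X] F (e p)))
    (hχ : ∀ σ σ' : Ω ≃ₐ[F] Ω, (∀ x, τ (σ' x) = σ (τ x)) → χ σ' = (χ σ)⁻¹)
    (w : HeightOneSpectrum k'[X]) : om (cm e w) a0 = -om w a0 := by
  have hτt : τ t ≠ 0 := (_root_.map_ne_zero τ).2 h.ne
  obtain ⟨g, hg⟩ : τ t * t ∈ Set.range (algebraMap F Ω) := by
    rw [InfiniteGalois.mem_range_algebraMap_iff_fixed]
    intro σ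
    obtain ⟨σ', hσ'⟩ := exists_conj hpres τ σ
    rw [map_mul, ← hσ', h.act, h.act, map_mul, hτ, hχ σ σ' hσ']
    field_simp [hχ0 σ]
  have hg0 : g ≠ 0 := by
    rintro rfl
    rw [map_zero] at hg
    exact mul_ne_zero hτt h.ne hg.symm
  obtain ⟨y, hy⟩ := hpres τ a0
  have hy3 : algebraMap F Ω y = (τ t) ^ 3 := by rw [← hy, ← h.cube, map_pow]
  have e1 : y * a0 = g ^ 3 := by
    apply (algebraMap F Ω).injective
    rw [map_mul, hy3, ← h.cube, map_pow, hg, mul_pow]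
  have hy0 : y ≠ 0 := by
    rintro rfl
    rw [zero_mul] at e1
    exact pow_ne_zero 3 hg0 e1.symm
  have e2 := congrArg (om w) e1
  rw [om_mul w hy0 h.fne, om_pow] at e2
  have h30 : ((3 : ℕ) : ZMod 3) = 0 := by decide
  rw [h30, zero_mul] at e2
  rw [om_gal hs hy w]
  linear_combination e2

/-- A character whose Kummer generator has orders divisible by three vanishes. -/
theorem char_van [IsSepClosed k'] (h3' : (3 : k') ≠ 0) {z : Ω} (hz : z ^ 2 + z + 1 = 0)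
    (hzF : ∀ σ : Ω ≃ₐ[F] Ω, σ z = z) {χ : (Ω ≃ₐ[F] Ω) → Ω} {t : Ω} {a0 : F} (h : K3 χ t a0)
    (hf : ∀ w : HeightOneSpectrum k'[X], om w a0 = 0) (σ : Ω ≃ₐ[F] Ω) : χ σ = 1 := by
  obtain ⟨u, s, hu, hs, e⟩ := cube_F h.fne hf
  haveI : NeZero ((3 : ℕ) : k') := ⟨by exact_mod_cast h3'⟩
  obtain ⟨v, hv⟩ := IsSepClosed.exists_pow_nat_eq u 3
  obtain ⟨g, hg⟩ : ∃ g : F, g = algebraMap k'[X] F (C v) * s := ⟨_, rfl⟩
  have e2 : a0 = g ^ 3 := by
    rw [e, ← hv, C_pow, map_pow, hg]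
    ring
  have hgn : algebraMap F Ω g ≠ 0 := by
    rw [Ne, map_eq_zero]
    rintro rfl
    apply h.fne
    rw [e2]
    ring
  obtain ⟨ω, hω⟩ : ∃ ω, ω = t / algebraMap F Ω g := ⟨_, rfl⟩
  have hω3 : ω ^ 3 = 1 := by
    rw [hω, div_pow, h.cube, e2, map_pow]
    exact div_self (pow_ne_zero 3 hgn)
  have hσω : σ ω = ω := by
    have h5 : (ω - 1) * ((ω - z) * (ω - z ^ 2)) = 0 := by
      have : (ω - 1) * ((ω - z) * (ω - z ^ 2)) = ω ^ 3 - 1 := by
        linear_combination (-(ω ^ 2) + ω * z - z + 1) * hz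
      rw [this, hω3, sub_self]
    rcases mul_eq_zero.1 h5 with h6 | h6
    · rw [sub_eq_zero.1 h6, map_one]
    · rcases mul_eq_zero.1 h6 with h7 | h7
      · rw [sub_eq_zero.1 h7, hzF]
      · rw [sub_eq_zero.1 h7, map_pow, hzF]
  have ht : t = ω * algebraMap F Ω g := by rw [hω, div_mul_cancel₀ _ hgn]
  have h1 : σ t = t := by rw [ht, map_mul, hσω, σ.commutes]
  have h2 := h.act σ
  rw [h1] at h2
  exact (mul_right_cancel₀ h.ne (by rw [one_mul]; exact h2)).symm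

end kill

section van

variable {k k' K F0 F Ω : Type} [Field k] [Field k'] [Algebra k k'] [IsSepClosure k k'] [Field K]
  [Algebra k[X] K] [IsFractionRing k[X] K] [Field F0] [Algebra k'[X] F0] [IsFractionRing k'[X] F0]
  [Algebra K F0] [Field F] [Algebra k'[X] F] [IsFractionRing k'[X] F] [Algebra F0 F] [Algebra K F]
  [IsScalarTower K F0 F] [Field Ω] [Algebra F0 Ω] [Algebra F Ω] [Algebra K Ω]
  [IsScalarTower F0 F Ω] [IsScalarTower K F0 Ω] [IsScalarTower K F Ω] [IsSepClosure F0 Ω]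
  (hKF : ∀ p : k[X], algebraMap K F0 (algebraMap k[X] K p) =
      algebraMap k'[X] F0 (p.map (algebraMap k k')))
  {c t0 : k'} (hQ : IsQ k' F0 F c t0) {c0 t00 : k} (hc : c = algebraMap k k' c0)
  (ht : t0 = algebraMap k k' t00)

theorem two3 : ∀ a : ZMod 3, a = -a → a = 0 := by decide

include hKF hQ hc ht in
theorem van3 [IsGalois F0 Ω] (h2 : (2 : k') ≠ 0) (h3' : (3 : k') ≠ 0) {z : Ω}
    (hz : z ^ 2 + z + 1 = 0) (hzF : ∀ σ : Ω ≃ₐ[F] Ω, σ z = z)
    {χ : (Ω ≃ₐ[F] Ω) → Ω} {s : Ω} {f0 : F} (hk : K3 χ s f0)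
    (hτ : ∀ (τ : Ω ≃ₐ[K] Ω) (σ : Ω ≃ₐ[F] Ω), τ (χ σ) = χ σ) (hχ0 : ∀ σ, χ σ ≠ 0)
    (hχ : ∀ τ : Ω ≃ₐ[K] Ω, τ (algebraMap F Ω (sF k' F)) = -algebraMap F Ω (sF k' F) →
      ∀ σ σ' : Ω ≃ₐ[F] Ω, (∀ x, τ (σ' x) = σ (τ x)) → χ σ' = (χ σ)⁻¹)
    {P : k[X]} (hP : P ≠ 0) (hsep : ∀ π : k[X], Irreducible π → π ∣ P → π.Separable)
    (hbad : ∀ ρ : k', ρ ≠ 0 → (P.map (algebraMap k k')).eval (c⁻¹ * ρ ^ 2 + t0) = 0 →
      ∃ s0 : k' ≃ₐ[k] k', s0 ρ = -ρ)
    (hgood : ∀ w v : HeightOneSpectrum k'[X],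
      (∀ p : k'[X], p ∈ v.asIdeal ↔ p.comp (C c⁻¹ * X ^ 2 + C t0) ∈ w.asIdeal) →
      C c * (X - C t0) ∉ v.asIdeal → P.map (algebraMap k k') ∉ v.asIdeal →
      ∃ w' : HeightOneSpectrum k'[X], (w' = w ∨ w' = cm (ng k') w) ∧ om w' f0 = 0)
    (σ : Ω ≃ₐ[F] Ω) : χ σ = 1 := by
  haveI : IsSepClosed k' := IsSepClosure.sep_closed k
  haveI : IsSepClosed Ω := IsSepClosure.sep_closed F0
  haveI : IsGalois F Ω := IsGalois.tower_top_of_isGalois F0 F Ω
  have hpres : Preserves K F Ω := hQ.pres hKF hc ht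
  have hkill : ∀ (s0 : k' ≃ₐ[k] k') (w : HeightOneSpectrum k'[X]),
      om (cm (eG s0 true) w) f0 = -om w f0 := by
    intro s0 w
    obtain ⟨τ, hτ', hs⟩ := hQ.lift (Ω := Ω) hKF hc ht s0
    exact kill hpres hk (hτ τ) hχ0 hs (hχ τ hτ') w
  have hng : ∀ w : HeightOneSpectrum k'[X], om (cm (ng k') w) f0 = -om w f0 := by
    intro w
    rw [← cm_ng (k := k)]
    exact hkill _ w
  refine char_van h3' hz hzF hk (fun w => ?_) σ
  obtain ⟨v, hv⟩ := exists_under (t0 := t0) hQ.c0 w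
  by_cases hu : C c * (X - C t0) ∈ v.asIdeal
  · -- the ramified place
    rw [hv] at hu
    have e1 : (C c * (X - C t0) : k'[X]).comp (C c⁻¹ * X ^ 2 + C t0) = X ^ 2 := by
      rw [mul_comp, C_comp, sub_comp, X_comp, C_comp, add_sub_cancel_right, ← mul_assoc, ← C_mul,
        mul_inv_cancel₀ hQ.c0, C_1, one_mul]
    rw [e1] at hu
    have hX : X - C (0 : k') ∈ w.asIdeal := by
      rw [C_0, sub_zero]
      exact w.isPrime.mem_of_pow_mem _ hu
    have hw := eq_pl_of hX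
    have h3 := hkill (AlgEquiv.refl : k' ≃ₐ[k] k') w
    rw [hw, cm_pl0] at h3
    rw [hw]
    exact two3 _ h3
  · by_cases hPv : P.map (algebraMap k k') ∈ v.asIdeal
    · -- a place which does not split
      have hP' : P.map (algebraMap k k') ≠ 0 :=
        (Polynomial.map_ne_zero_iff (algebraMap k k').injective).2 hP
      obtain ⟨θ, hθ, e⟩ := exists_root_of_mem hP' (splits_of_sep hP hsep) hPv
      have hθv : X - C θ ∈ v.asIdeal := by
        rw [e, mem_pl, IsRoot.def, eval_sub, eval_X, eval_C, sub_self]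
      rw [hv, sub_comp, X_comp, C_comp] at hθv
      haveI : NeZero ((2 : ℕ) : k') := ⟨by exact_mod_cast h2⟩
      obtain ⟨ρ, hρ⟩ := IsSepClosed.exists_pow_nat_eq (c * (θ - t0)) 2
      have hcc : c⁻¹ * ρ ^ 2 + t0 = θ := by
        rw [hρ, ← mul_assoc, inv_mul_cancel₀ hQ.c0, one_mul, sub_add_cancel]
      have e2 : (C c⁻¹ * X ^ 2 + C t0 - C θ : k'[X]) = C c⁻¹ * ((X - C ρ) * (X - C (-ρ))) := by
        rw [← hcc, C_add, C_mul, C_pow, C_neg]
        ring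
      rw [e2] at hθv
      have hCc : C c⁻¹ ∉ w.asIdeal := by
        intro h
        apply w.isPrime.ne_top
        apply Ideal.eq_top_of_isUnit_mem _ h
        exact isUnit_C.2 (isUnit_iff_ne_zero.2 (inv_ne_zero hQ.c0))
      have hmem := (w.isPrime.mem_or_mem hθv).resolve_left hCc
      obtain ⟨ρ', hρ', hw⟩ : ∃ ρ' : k', c⁻¹ * ρ' ^ 2 + t0 = θ ∧ w = pl ρ' := by
        rcases w.isPrime.mem_or_mem hmem with h | h
        · exact ⟨ρ, hcc, eq_pl_of h⟩
        · exact ⟨-ρ, by rw [neg_sq, hcc], eq_pl_of h⟩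
      have hρ0 : ρ' ≠ 0 := by
        rintro rfl
        apply hu
        rw [zero_pow (by norm_num), mul_zero, zero_add] at hρ'
        rw [e, mem_pl, IsRoot.def, eval_mul, eval_sub, eval_X, eval_C, eval_C, hρ', sub_self,
          mul_zero]
      obtain ⟨s0, hs0⟩ := hbad ρ' hρ0 (by
        rw [hρ']
        exact (mem_roots hP').1 hθ)
      have h3 := hkill s0 w
      rw [hw, cm_pl hs0] at h3
      rw [hw]
      exact two3 _ h3
    · -- a good place
      obtain ⟨w', hw', h0⟩ := hgood w v hv hu hPv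
      rcases hw' with rfl | rfl
      · exact h0
      · rw [hng] at h0
        exact neg_eq_zero.1 h0

end van

end Pool.Agent.Helper23K9.Q3
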