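import Pool.Agent.Helper23K9.Q3.Kil
import Pool.Agent.Helper7K9.T3.Loc
import Pool.Agent.Helper7K9.T3.Main

/-!
Good places for curves with a point of order three.
-/

set_option autoImplicit false
set_option linter.all false

open Polynomial IsDedekindDomain WeierstrassCurve WeierstrassCurve.Affine
open scoped Classical

namespace Pool.Agent.Helper23K9.Q3

open Pool.Agent.TH115.GD (pl cm cm_mem cm_val wv wv_coe sqrt_one Comp Pt act rs ak LocTriv Sep wFin)
open Pool.Agent.Helper7K9.T3 (om om_of_Cu Cu gen0 gen1 loc0T loc1T S0 ch InT isE3 crv3 cube_roots)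
open Pool.Agent.Helper23K9.Q5

section good

variable {k k' K F0 F : Type} [Field k] [Field k'] [Algebra k k'] [IsSepClosed k'] [Field K]
  [Algebra k[X] K] [IsFractionRing k[X] K] [Field F0] [Algebra k'[X] F0] [IsFractionRing k'[X] F0]
  [Algebra K F0]
  (hKF : ∀ p : k[X], algebraMap K F0 (algebraMap k[X] K p) =
      algebraMap k'[X] F0 (p.map (algebraMap k k')))
  [Field F] [Algebra k'[X] F] [IsFractionRing k'[X] F] [Algebra F0 F] [Algebra K F]
  [IsScalarTower K F0 F] [Algebra F (Sep F0)] [IsScalarTower F0 F (Sep F0)]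
  [IsScalarTower K F (Sep F0)] {c t0 : k'} (hQ : IsQ k' F0 F c t0)
  (h2 : (2 : k') ≠ 0) (h2Ω : (2 : Sep F0) ≠ 0)
  {pa pb : k[X]} {a b d : K} (ea : a = algebraMap k[X] K pa) (eb : b = algebraMap k[X] K pb)
  (h3 : (3 : K) ≠ 0) (hb : b ≠ 0) (hd : a ^ 3 - 27 * b ≠ 0) {z : F} (hz : z ^ 2 + z + 1 = 0)
  (hE : (crv3 a b).Δ ≠ 0) (hr : (algebraMap F (Sep F0) (sF k' F)) ^ 2 = algebraMap K (Sep F0) d)
  (hr0 : algebraMap F (Sep F0) (sF k' F) ≠ 0)
  {f : (Sep F0 ≃ₐ[F0] Sep F0) → Pt (qtw d (crv3 a b)) (Sep F0)}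
  {g : (Sep F0 ≃ₐ[F] Sep F0) → Pt (crv3 a b) (Sep F0)}
  (hg : ∀ σ, tw hE h2Ω hr hr0 (g σ) = f (σ.restrictScalars F0))
  {w v : HeightOneSpectrum k'[X]}
  (hv : ∀ p : k'[X], p ∈ v.asIdeal ↔ p.comp (C c⁻¹ * X ^ 2 + C t0) ∈ w.asIdeal)
  (hu : C c * (X - C t0) ∉ v.asIdeal)
  (hloc : LocTriv (qtw d (crv3 a b)) (Comp k'[X] F0 v) (Sep (Comp k'[X] F0 v)) f)

include hKF h2 h3 hb hd hz hQ hg hv hu hloc ea eb in
theorem first_good3 (hg3 : ∀ σ, g σ + g σ + g σ = 0)
    {s : Sep F0} {f0 : F} (hk : K3 (fun σ => S0 a b (g σ)) s f0)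
    (hv1 : pb.map (algebraMap k k') ∉ v.asIdeal) :
    ∃ w' : HeightOneSpectrum k'[X], (w' = w ∨ w' = cm (ng k') w) ∧ om w' f0 = 0 := by
  obtain ⟨ι, P, h⟩ := hloc
  obtain ⟨j, j1, j2⟩ := exists_place (F := F) hQ h2 v hu ι
  obtain ⟨w', hw', hw⟩ := place_val hQ w v hv hu j1
  refine ⟨w', hw', ?_⟩
  letI : Algebra F (Comp k'[X] F0 v) := j.toAlgebra
  haveI : IsScalarTower K F (Comp k'[X] F0 v) := by
    refine IsScalarTower.of_algebraMap_eq fun x => ?_
    show algebraMap K (Comp k'[X] F0 v) x = j (algebraMap K F x)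
    rw [IsScalarTower.algebraMap_apply K F0 F, j1, ← IsScalarTower.algebraMap_apply K F0]
  haveI : IsGalois F (Sep F0) := IsGalois.tower_top_of_isGalois F0 F (Sep F0)
  have hval : ∀ p : k[X], w'.valuation F (algebraMap K F (algebraMap k[X] K p)) =
      v.intValuation (p.map (algebraMap k k')) := by
    intro p
    rw [hw, IsScalarTower.algebraMap_apply K F0 F, j1, wv_coe, hKF, v.valuation_of_algebraMap]
  let ι' : Sep F0 →ₐ[F] Sep (Comp k'[X] F0 v) :=
    { (ι : Sep F0 →+* Sep (Comp k'[X] F0 v)) with commutes' := fun x => j2 x }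
  have hloc' : LocTriv (crv3 a b) (Comp k'[X] F0 v) (Sep (Comp k'[X] F0 v)) g :=
    loc_tw hE h2Ω hr hr0 h ι' (fun x => rfl) (y := j (sF k' F)) (j2 _) hg
  have h3L : (3 : Sep (Comp k'[X] F0 v)) ≠ 0 := by
    have : (3 : Sep (Comp k'[X] F0 v)) = algebraMap K (Sep (Comp k'[X] F0 v)) 3 :=
      (map_ofNat _ _).symm
    rw [this]
    exact (_root_.map_ne_zero _).2 h3
  have h4 := loc0T (F := F) (L := Comp k'[X] F0 v) (Ω' := Sep (Comp k'[X] F0 v)) h3 hb hd hz
    (cube_roots _ h3L) hg3 hloc' hk.ne hk.cube hk.act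
  apply om_of_Cu
  refine gen0 (F := F) (L := Comp k'[X] F0 v) (wv (F := F0) v) (w'.valuation F)
    (fun x => (hw x).symm) ?_ ?_ h4
  · rw [ea, hval]
    exact v.intValuation_le_one _
  · rw [eb, hval, HeightOneSpectrum.intValuation_eq_one_iff]
    exact hv1

include hKF h2 h3 hb hd hz hQ hg hv hu hloc ea eb in
theorem second_good3 (hg3 : ∀ σ, InT (isE3 a b (Sep F0) h3 hb hd) (g σ))
    {s : Sep F0} {f0 : F} (hk : K3 (fun σ => ch (algebraMap F (Sep F0) z) (g σ)) s f0)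
    (hv1 : (pa ^ 3 - 27 * pb).map (algebraMap k k') ∉ v.asIdeal) :
    ∃ w' : HeightOneSpectrum k'[X], (w' = w ∨ w' = cm (ng k') w) ∧ om w' f0 = 0 := by
  obtain ⟨ι, P, h⟩ := hloc
  obtain ⟨j, j1, j2⟩ := exists_place (F := F) hQ h2 v hu ι
  obtain ⟨w', hw', hw⟩ := place_val hQ w v hv hu j1
  refine ⟨w', hw', ?_⟩
  letI : Algebra F (Comp k'[X] F0 v) := j.toAlgebra
  haveI : IsScalarTower K F (Comp k'[X] F0 v) := by
    refine IsScalarTower.of_algebraMap_eq fun x => ?_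
    show algebraMap K (Comp k'[X] F0 v) x = j (algebraMap K F x)
    rw [IsScalarTower.algebraMap_apply K F0 F, j1, ← IsScalarTower.algebraMap_apply K F0]
  haveI : IsGalois F (Sep F0) := IsGalois.tower_top_of_isGalois F0 F (Sep F0)
  have hval : ∀ p : k[X], w'.valuation F (algebraMap K F (algebraMap k[X] K p)) =
      v.intValuation (p.map (algebraMap k k')) := by
    intro p
    rw [hw, IsScalarTower.algebraMap_apply K F0 F, j1, wv_coe, hKF, v.valuation_of_algebraMap]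
  let ι' : Sep F0 →ₐ[F] Sep (Comp k'[X] F0 v) :=
    { (ι : Sep F0 →+* Sep (Comp k'[X] F0 v)) with commutes' := fun x => j2 x }
  have hloc' : LocTriv (crv3 a b) (Comp k'[X] F0 v) (Sep (Comp k'[X] F0 v)) g :=
    loc_tw hE h2Ω hr hr0 h ι' (fun x => rfl) (y := j (sF k' F)) (j2 _) hg
  have h4 := loc1T (F := F) (L := Comp k'[X] F0 v) (Ω' := Sep (Comp k'[X] F0 v)) h3 hb hd hz
    hg3 hloc' hk.ne hk.cube hk.act
  apply om_of_Cu
  refine gen1 (F := F) (L := Comp k'[X] F0 v) (wv (F := F0) v) (w'.valuation F)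
    (fun x => (hw x).symm) ?_ ?_ ?_ h4
  · have e3 : (3 : F) = algebraMap K F (algebraMap k[X] K 3) := by
      rw [map_ofNat, map_ofNat]
    rw [e3, hval]
    exact v.intValuation_le_one _
  · rw [ea, hval]
    exact v.intValuation_le_one _
  · have e4 : a ^ 3 - 27 * b = algebraMap k[X] K (pa ^ 3 - 27 * pb) := by
      rw [ea, eb, map_sub, map_pow, map_mul, map_ofNat]
    rw [e4, hval, HeightOneSpectrum.intValuation_eq_one_iff]
    exact hv1

end good

end Pool.Agent.Helper23K9.Q3
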