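import Pool.Agent.Helper23K9.Q3.Slm

/-!
The Tate conjecture at 3 for quadratic twists of elliptic surfaces with a section of order three.
-/

set_option autoImplicit false
set_option linter.all false

open Polynomial IsDedekindDomain WeierstrassCurve WeierstrassCurve.Affine
open scoped Classical

namespace Pool.Agent.Helper23K9.Q3

open Pool.Agent.TH115.GD (vInf wInf wFin AtInf CompInf pl cm Pt act incl rs ak IsCoc LocTriv Sep Comp
  IsTower Preserves LocallyTrivial lt_subT act_act act_inj cob_isCoc preserves sepKΩ lift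
  exists_conj cont_rs)
open Pool.Agent.Helper7K9.T3 (TateAt IsTateClass tate_of_part om S0 ch ch_add ch_inj ch_ne InT isE3
  crv3 kummer0 kummer1 cube_roots InT_fix three_smul)
open Pool.Agent.Helper23K9.Q5

theorem crv3_disc {K : Type*} [Field K] (a b : K) : (crv3 a b).Δ = b ^ 3 * (a ^ 3 - 27 * b) := by
  simp only [crv3, WeierstrassCurve.Δ, WeierstrassCurve.b₂, WeierstrassCurve.b₄,
    WeierstrassCurve.b₆, WeierstrassCurve.b₈]
  ring

section main

variable {k k' K F0 : Type} [Field k] [Field k'] [Algebra k k'] [Field K] [Algebra k[X] K]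
    [Field F0] [Algebra k'[X] F0] [IsFractionRing k'[X] F0] [Algebra K F0]

/-- The main step: classes of order three in the Selmer group of the twist which are fixed by the
Galois group come from points of order three; the twist has no points of order three over
`k'(t)`. -/
theorem key_tw3 (hT : IsTower k k' K F0) (h2k : (2 : k) ≠ 0) (h3k : (3 : k) ≠ 0) {z0 : k}
    (hz0 : z0 ^ 2 + z0 + 1 = 0) {pa pb : k[X]} (hpb : pb ≠ 0) (hpd : pa ^ 3 - 27 * pb ≠ 0)
    (hs1 : ∀ π : k[X], Irreducible π → π ∣ pb → π.Separable)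
    (hs2 : ∀ π : k[X], Irreducible π → π ∣ pa ^ 3 - 27 * pb → π.Separable)
    {a b d : K} (ea : a = algebraMap k[X] K pa) (eb : b = algebraMap k[X] K pb)
    {c0 t00 : k} (hc0 : c0 ≠ 0) (ed : d = algebraMap k[X] K (C c0 * (X - C t00)))
    (hb1 : ∀ ρ : k', ρ ≠ 0 → (pb.map (algebraMap k k')).eval
      ((algebraMap k k' c0)⁻¹ * ρ ^ 2 + algebraMap k k' t00) = 0 → ∃ s0 : k' ≃ₐ[k] k', s0 ρ = -ρ)
    (hb2 : ∀ ρ : k', ρ ≠ 0 → ((pa ^ 3 - 27 * pb).map (algebraMap k k')).eval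
      ((algebraMap k k' c0)⁻¹ * ρ ^ 2 + algebraMap k k' t00) = 0 →
      ∃ s0 : k' ≃ₐ[k] k', s0 ρ = -ρ) :
    (∀ f : (Sep F0 ≃ₐ[F0] Sep F0) → Pt (qtw d (crv3 a b)) (Sep F0),
      Slm3 k' (qtw d (crv3 a b)) f →
      ∃ H : Pt (qtw d (crv3 a b)) (Sep F0), 3 • H = 0 ∧
        ∀ σ, f σ = act (qtw d (crv3 a b)) (rs K σ) H - H) ∧
    ∀ X : Pt (qtw d (crv3 a b)) (Sep F0),
      (∀ σ : Sep F0 ≃ₐ[F0] Sep F0, act (qtw d (crv3 a b)) (rs K σ) X = X) → 3 • X = 0 → X = 0 := by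
  haveI := hT.sep
  haveI := hT.fracK
  haveI : IsSepClosed k' := IsSepClosure.sep_closed k
  have hKF := hT.map
  have h2' : (2 : k') ≠ 0 := by
    rw [← map_ofNat (algebraMap k k') 2]
    exact (_root_.map_ne_zero _).2 h2k
  have h3' : (3 : k') ≠ 0 := by
    rw [← map_ofNat (algebraMap k k') 3]
    exact (_root_.map_ne_zero _).2 h3k
  obtain ⟨F, i1, i2, i3, i4, i5, i6, hQ⟩ := exists_FS (F0 := F0) (t0 := algebraMap k k' t00)
    ((_root_.map_ne_zero (algebraMap k k')).2 hc0) h2'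
  letI : Algebra K F := ((algebraMap F0 F).comp (algebraMap K F0)).toAlgebra
  haveI : IsScalarTower K F0 F := IsScalarTower.of_algebraMap_eq fun _ => rfl
  haveI : IsScalarTower K F (Sep F0) := IsScalarTower.of_algebraMap_eq fun x => by
    rw [IsScalarTower.algebraMap_apply K F0 (Sep F0), IsScalarTower.algebraMap_apply F0 F (Sep F0)]
    rfl
  obtain ⟨z, ez⟩ : ∃ z : K, z = algebraMap k[X] K (C z0) := ⟨_, rfl⟩
  have hz : z ^ 2 + z + 1 = 0 := by
    rw [ez, ← map_pow, ← map_add, ← map_one (algebraMap k[X] K), ← map_add, ← C_pow, ← C_add,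
      ← C_1, ← C_add, hz0, C_0, map_zero]
  have inj := IsFractionRing.injective k[X] K
  have h3K : (3 : K) ≠ 0 := by
    have : (3 : K) = algebraMap k[X] K (C 3) := by rw [map_ofNat, map_ofNat]
    rw [this, Ne, map_eq_zero_iff _ inj]
    exact C_ne_zero.2 h3k
  have hb : b ≠ 0 := by
    rw [eb, Ne, map_eq_zero_iff _ inj]
    exact hpb
  have hd : a ^ 3 - 27 * b ≠ 0 := by
    have : a ^ 3 - 27 * b = algebraMap k[X] K (pa ^ 3 - 27 * pb) := by
      rw [ea, eb, map_sub, map_pow, map_mul, map_ofNat]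
    rw [this, Ne, map_eq_zero_iff _ inj]
    exact hpd
  haveI : IsSepClosure K (Sep F0) := sepKΩ hKF
  haveI : Algebra.IsSeparable K (Sep F0) := IsSepClosure.separable
  haveI : IsGalois K (Sep F0) := inferInstance
  haveI : IsGalois F (Sep F0) := IsGalois.tower_top_of_isGalois F0 F (Sep F0)
  have h := isE3 a b (Sep F0) h3K hb hd
  have hpres : Preserves K F0 (Sep F0) := preserves hKF
  have hE : (crv3 a b).Δ ≠ 0 := by
    rw [crv3_disc]
    exact mul_ne_zero (pow_ne_zero 3 hb) hd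
  have h2Ω : (2 : Sep F0) ≠ 0 := by
    have : (2 : Sep F0) = algebraMap F0 (Sep F0) (algebraMap k'[X] F0 (C 2)) := by
      rw [map_ofNat, map_ofNat, map_ofNat]
    rw [this, Ne, map_eq_zero_iff _ (algebraMap F0 (Sep F0)).injective]
    intro h
    exact C_ne_zero.2 h2' (IsFractionRing.injective k'[X] F0 (h.trans (map_zero _).symm))
  have h3r := cube_roots (Sep F0) h.three
  -- the root of unity
  set ζ : Sep F0 := algebraMap K (Sep F0) z with hζ
  have hzΩ : ζ ^ 2 + ζ + 1 = 0 := by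
    rw [hζ, ← map_pow, ← map_add, ← map_one (algebraMap K (Sep F0)), ← map_add, hz, map_zero]
  have hzK : ∀ φ : Sep F0 →ₐ[K] Sep F0, φ ζ = ζ := fun φ => φ.commutes _
  have hzF : ∀ σ : Sep F0 ≃ₐ[F] Sep F0, σ ζ = ζ := fun σ => hzK (rs K σ)
  obtain ⟨zF, ezF⟩ : ∃ zF : F, zF = algebraMap K F z := ⟨_, rfl⟩
  have hzF' : zF ^ 2 + zF + 1 = 0 := by
    rw [ezF, ← map_pow, ← map_add, ← map_one (algebraMap K F), ← map_add, hz, map_zero]
  have eζ : algebraMap F (Sep F0) zF = ζ := by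
    rw [ezF, ← IsScalarTower.algebraMap_apply K F (Sep F0)]
  -- the square root
  have hr : (algebraMap F (Sep F0) (sF k' F)) ^ 2 = algebraMap K (Sep F0) d := by
    rw [← map_pow, hQ.sqK hKF rfl rfl, ← IsScalarTower.algebraMap_apply K F (Sep F0), ed]
  have hr0 : algebraMap F (Sep F0) (sF k' F) ≠ 0 := (_root_.map_ne_zero _).2 sF_ne
  have hneg := hQ.exists_neg (Ω := Sep F0)
  have htor := no_tor3 h3K hb hd hzΩ hzK h3r hE h2Ω hr hr0 hneg
  refine ⟨fun f hf => ?_, fun X hX h0 => htor 1 X hX (by rw [pow_one]; exact h0)⟩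
  have hrF : ∀ σ : Sep F0 ≃ₐ[F] Sep F0, (σ.restrictScalars F0) (algebraMap F (Sep F0) (sF k' F)) =
      algebraMap F (Sep F0) (sF k' F) := fun σ => σ.commutes _
  have hext : ∀ σ : Sep F0 ≃ₐ[F0] Sep F0,
      σ (algebraMap F (Sep F0) (sF k' F)) = algebraMap F (Sep F0) (sF k' F) →
      ∃ σ' : Sep F0 ≃ₐ[F] Sep F0, σ'.restrictScalars F0 = σ := by
    intro σ hσ
    have h1 : (σ : Sep F0 →+* Sep F0).comp (algebraMap F (Sep F0)) = algebraMap F (Sep F0) := by
      refine hom_ext hQ (fun x => ?_) hσ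
      show σ (algebraMap F (Sep F0) (algebraMap F0 F x)) = _
      rw [← IsScalarTower.algebraMap_apply F0 F (Sep F0), σ.commutes]
    exact ⟨AlgEquiv.ofRingEquiv (f := σ.toRingEquiv) (fun x => RingHom.congr_fun h1 x),
      AlgEquiv.ext fun x => rfl⟩
  obtain ⟨τ1, hτ1⟩ := hneg
  -- the restriction to `F` of a cocycle
  obtain ⟨U, hU⟩ : ∃ U : Pt (qtw d (crv3 a b)) (Sep F0) → Pt (crv3 a b) (Sep F0),
      U = un hE h2Ω hr hr0 := ⟨_, rfl⟩
  have hcoc : ∀ f : (Sep F0 ≃ₐ[F0] Sep F0) → Pt (qtw d (crv3 a b)) (Sep F0),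
      IsCoc (qtw d (crv3 a b)) f → IsCoc (crv3 a b) (fun σ : Sep F0 ≃ₐ[F] Sep F0 =>
        U (f (σ.restrictScalars F0))) := by
    intro f hf
    refine ⟨?_, fun σ τ => ?_⟩
    · exact (hf.lc.comp_continuous (cont_rs (F := F0) (M := F) (Ω := Sep F0))).comp U
    · rw [hU]
      have h1 := hf.mul (σ.restrictScalars F0) (τ.restrictScalars F0)
      show un hE h2Ω hr hr0 (f (σ.restrictScalars F0 * τ.restrictScalars F0)) = _
      rw [h1, un_add, un_pos hE h2Ω hr hr0 (φ := rs K (σ.restrictScalars F0)) (hrF σ)]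
      rfl
  have htw : ∀ X, tw hE h2Ω hr hr0 (U X) = X := by
    intro X
    rw [hU]
    exact (tw hE h2Ω hr hr0).apply_symm_apply X
  have hU3 : ∀ {X : Pt (qtw d (crv3 a b)) (Sep F0)}, 3 • X = 0 → U X + U X + U X = 0 := by
    intro X hX
    rw [hU]
    exact un_three hE h2Ω hr hr0 hX
  -- the first step
  obtain ⟨s1, f1, n1, c1, k1⟩ := kummer0 (F := F) h3K hb hd hzΩ hzF h3r (hcoc f hf.coc)
    (fun σ => hU3 (hf.three _))
  have k1' : K3 (fun σ : Sep F0 ≃ₐ[F] Sep F0 => S0 a b (U (f (σ.restrictScalars F0)))) s1 f1 :=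
    ⟨n1, c1, k1⟩
  have v1 := van3 hKF hQ rfl rfl h2' h3' hzΩ hzF k1'
    (fun τ σ => s_fix h3K hb hd hzΩ hzK (hU3 (hf.three _)) (ak τ))
    (fun σ => s_ne h3K hb hd hzΩ (hU3 (hf.three _)))
    (fun τ hτ σ σ' hr' => by
      obtain ⟨Q, ⟨N, hN⟩, hrel⟩ := hf.inv τ
      have hQ3 := inv3 h3K hb hd hzΩ hzK h3r hE h2Ω hr hr0 ⟨τ1, hτ1⟩ hpres hf.three τ hN hrel
      have h1 := first_inv h3K hb hd hzΩ hzK h3r hE h2Ω hr hr0 hf.three hτ hQ3 (hrF σ)
        (hrel (σ.restrictScalars F0) (σ'.restrictScalars F0) hr')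
      rw [hU]
      exact h1)
    hpb hs1 hb1 (fun w v hv hu hPv => first_good3 hKF hQ h2' h2Ω ea eb h3K hb hd hzF' hE hr hr0
      (fun σ => htw _) hv hu (hf.loc.1 v) (fun σ => hU3 (hf.three _)) k1' hPv)
  have hfI := first_cob h3K hb hd hzΩ hzK h3r hE h2Ω hr hr0 hf.coc hf.three (fun σ hσ => by
    obtain ⟨σ', rfl⟩ := hext σ hσ
    have := v1 σ'
    rw [hU] at this
    exact this) hτ1
  -- the second step
  have hf' : Slm3 k' (qtw d (crv3 a b))
      (fun σ => f σ - (act (qtw d (crv3 a b)) (rs K σ) (f τ1) - f τ1)) :=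
    hf.sub (Q := 0) (by rw [hf.three, map_zero])
  obtain ⟨f', hf'e⟩ : ∃ f' : (Sep F0 ≃ₐ[F0] Sep F0) → Pt (qtw d (crv3 a b)) (Sep F0),
      f' = fun σ => f σ - (act (qtw d (crv3 a b)) (rs K σ) (f τ1) - f τ1) := ⟨_, rfl⟩
  rw [← hf'e] at hf'
  have hfI' : ∀ σ, InT h (U (f' σ)) := by
    intro σ
    rw [hU, hf'e]
    exact hfI σ
  obtain ⟨s2, f2, n2, c2, k2⟩ := kummer1 (F := F) h3K hb hd hzΩ hzF (hcoc f' hf'.coc)
    (fun σ => hfI' _)
  have k2' : K3 (fun σ : Sep F0 ≃ₐ[F] Sep F0 => ch (algebraMap F (Sep F0) zF)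
      (U (f' (σ.restrictScalars F0)))) s2 f2 := by
    rw [eζ]
    exact ⟨n2, c2, k2⟩
  have chfix : ∀ (S : Pt (crv3 a b) (Sep F0)), InT h S → ∀ φ : Sep F0 →ₐ[K] Sep F0,
      φ (ch (algebraMap F (Sep F0) zF) S) = ch (algebraMap F (Sep F0) zF) S := by
    intro S hS φ
    rw [eζ]
    rcases hS with rfl | rfl | rfl
    · show φ 1 = 1
      rw [map_one]
    · rw [Pool.Agent.Helper7K9.T3.ch_pT h]; exact hzK φ
    · rw [Pool.Agent.Helper7K9.T3.ch_neg_pT h, map_pow, hzK]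
  have v2 := van3 hKF hQ rfl rfl h2' h3' hzΩ hzF k2'
    (fun τ σ => chfix _ (hfI' _) (ak τ))
    (fun σ => by rw [eζ]; exact ch_ne h hzΩ (hfI' _))
    (fun τ hτ σ σ' hr' => by
      obtain ⟨Q, ⟨N, hN⟩, hrel⟩ := hf'.inv τ
      have hQ3 := inv3 h3K hb hd hzΩ hzK h3r hE h2Ω hr hr0 ⟨τ1, hτ1⟩ hpres hf'.three τ hN hrel
      obtain ⟨τ1', hτ1'⟩ := exists_conj hpres τ τ1
      have h1 := second_inv h3K hb hd hzΩ hzK h3r hE h2Ω hr hr0 (f := f')
        (fun σ => by have := hfI' σ; rw [hU] at this; exact this) hτ1 hτ hQ3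
        (hrel τ1 τ1' hτ1') (hrF σ)
        (hrel (σ.restrictScalars F0) (σ'.restrictScalars F0) hr')
      have h3 : U (f' (σ'.restrictScalars F0)) = -U (f' (σ.restrictScalars F0)) := by
        rw [hU]
        exact h1
      rw [eζ, h3]
      apply eq_inv_of_mul_eq_one_left
      rw [← ch_add h hzΩ ((hfI' _).neg h) (hfI' _), neg_add_cancel]
      rfl)
    hpd hs2 hb2 (fun w v hv hu hPv => second_good3 hKF hQ h2' h2Ω ea eb h3K hb hd hzF' hE hr hr0
      (fun σ => htw _) hv hu (hf'.loc.1 v) (fun σ => hfI' _) k2' hPv)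
  have hc := second_cob h3K hb hd hE h2Ω hr hr0 hf'.coc
    (fun σ => by have := hfI' σ; rw [hU] at this; exact this) (fun σ hσ => by
      obtain ⟨σ', rfl⟩ := hext σ hσ
      have h1 := v2 σ'
      rw [eζ] at h1
      have h3 := ch_inj h hzΩ (hfI' _) h1
      rw [← htw (f' (σ'.restrictScalars F0)), h3, map_zero]) hτ1
  refine ⟨f' τ1 + f τ1, ?_, fun σ => ?_⟩
  · rw [smul_add, hf'.three, hf.three, add_zero]
  · have h1 := hc σ
    have h3 : f' σ = f σ - (act (qtw d (crv3 a b)) (rs K σ) (f τ1) - f τ1) := by rw [hf'e]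
    rw [h1] at h3
    rw [map_add]
    have h4 : f σ = act (qtw d (crv3 a b)) (rs K σ) (f' τ1) - f' τ1 +
        (act (qtw d (crv3 a b)) (rs K σ) (f τ1) - f τ1) := by
      rw [h3, sub_add_cancel]
    rw [h4]
    abel

end main

end Pool.Agent.Helper23K9.Q3
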