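import Pool.Agent.Helper23K9.Q3.Grp
import Pool.Agent.Helper23K9.Q5.Rk0

/-!
Selmer classes of order three.
-/

set_option autoImplicit false
set_option linter.all false

open Polynomial IsDedekindDomain WeierstrassCurve WeierstrassCurve.Affine
open scoped Classical

namespace Pool.Agent.Helper23K9.Q3

open Pool.Agent.TH115.GD (vInf pl Pt act incl rs ak IsCoc LocTriv Sep Comp IsTower Preserves
  LocallyTrivial lt_subT act_act cob_isCoc)
open Pool.Agent.Helper7K9.T3 (TateAt IsTateClass IsTC IsInv)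

section sel

variable {k' K F : Type} [Field k'] [Field K] [Field F] [Algebra K F] [Algebra k'[X] F]
  [IsFractionRing k'[X] F] {W : WeierstrassCurve K}

/-- Classes of order three which are everywhere locally trivial and fixed by the Galois group
of `K`. -/
structure Slm3 (k' : Type) [Field k'] [Algebra k'[X] F] [IsFractionRing k'[X] F]
    (W : WeierstrassCurve K) (f : (Sep F ≃ₐ[F] Sep F) → Pt W (Sep F)) : Prop where
  coc : IsCoc W f
  three : ∀ σ, 3 • f σ = 0
  loc : LocallyTrivial k' W f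
  inv : ∀ τ : Sep F ≃ₐ[K] Sep F, ∃ Q : Pt W (Sep F), (∃ N : ℕ, 3 ^ N • Q = 0) ∧
    ∀ σ σ' : Sep F ≃ₐ[F] Sep F, (∀ x, τ (σ' x) = σ (τ x)) →
      act W (ak τ) (f σ') - f σ = act W (rs K σ) Q - Q

theorem Slm3.ofTate {c : ℕ → (Sep F ≃ₐ[F] Sep F) → Pt W (Sep F)} (hc : IsTateClass 3 k' W c) :
    Slm3 k' W (c 1) := by
  have hcc := hc.tc
  refine ⟨hcc.coc 1, fun σ => by rw [hcc.mul 0 σ, hcc.zero], hc.loc 1, fun τ => ?_⟩
  obtain ⟨N, Q, hQ, hi⟩ := hc.inv τ
  have hpow : ∀ (n : ℕ) (σ), 3 ^ n • c (n + 1) σ = c 1 σ := by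
    intro n
    induction n with
    | zero => intro σ; rw [pow_zero, one_smul]
    | succ n ih =>
      intro σ
      rw [pow_succ, mul_smul, hcc.mul, ih]
  have hQpow : ∀ (n : ℕ), 3 ^ n • Q n = 0 := by
    intro n
    induction n with
    | zero => rw [hQ.zero, smul_zero]
    | succ n ih =>
      rw [pow_succ, mul_smul, hQ.mul, ih]
  refine ⟨Q (N + 1), ⟨N + 1, hQpow _⟩, fun σ σ' hr => ?_⟩
  rw [← hi (N + 1) σ σ' hr, smul_sub, ← map_nsmul, hpow, hpow]

/-- A third part of a rational point is fixed up to points of order three. -/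
theorem part_three {R : Pt W (Sep F)} {Q : Pt W K} (hR : 3 • R = act W (incl K K (Sep F)) Q)
    (φ : Sep F →ₐ[K] Sep F) : 3 • (act W φ R - R) = 0 := by
  have h1 : φ.comp (incl K K (Sep F)) = incl K K (Sep F) := AlgHom.ext fun x => φ.commutes x
  rw [smul_sub, ← map_nsmul, hR, act_act, h1, sub_self]

theorem Slm3.sub {f : (Sep F ≃ₐ[F] Sep F) → Pt W (Sep F)} (hf : Slm3 k' W f)
    {R : Pt W (Sep F)} {Q : Pt W K} (hR : 3 • R = act W (incl K K (Sep F)) Q) :
    Slm3 k' W (fun σ => f σ - (act W (rs K σ) R - R)) := by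
  refine ⟨hf.coc.sub _ (cob_isCoc _ _), fun σ => ?_, lt_subT hf.loc R, fun τ => ?_⟩
  · rw [smul_sub, hf.three, part_three hR, sub_zero]
  · obtain ⟨S, ⟨N, hN⟩, hrel⟩ := hf.inv τ
    refine ⟨S - (act W (ak τ) R - R), ⟨N + 1, ?_⟩, fun σ σ' h => ?_⟩
    · rw [smul_sub]
      have h5 : 3 ^ (N + 1) • S = 0 := by rw [pow_succ', mul_smul, hN, smul_zero]
      have h6 : 3 ^ (N + 1) • (act W (ak τ) R - R) = 0 := by
        rw [pow_succ, mul_smul, part_three hR, smul_zero]
      rw [h5, h6, sub_zero]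
    · have h1 := hrel σ σ' h
      have hcomp : act W (ak τ) (act W (rs K σ') R) = act W (rs K σ) (act W (ak τ) R) := by
        have h5 : (ak τ).comp (rs K σ') = (rs K σ).comp (ak τ) := AlgHom.ext fun x => h x
        rw [act_act, act_act, h5]
      show act W (ak τ) (f σ' - (act W (rs K σ') R - R)) - (f σ - (act W (rs K σ) R - R)) =
        act W (rs K σ) (S - (act W (ak τ) R - R)) - (S - (act W (ak τ) R - R))
      rw [map_sub (act W (ak τ)), map_sub (act W (ak τ)), hcomp, map_sub (act W (rs K σ)) S,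
        map_sub (act W (rs K σ))]
      have h6 : act W (ak τ) (f σ') = f σ + (act W (rs K σ) S - S) := by
        rw [← h1]; abel
      rw [h6]
      abel

theorem Slm3.ofPt {f : (Sep F ≃ₐ[F] Sep F) → Pt W (Sep F)} (hf : LocallyTrivial k' W f)
    (hf0 : ∀ σ, f σ = 0) {R : Pt W (Sep F)} {Q : Pt W K}
    (hR : 3 • R = act W (incl K K (Sep F)) Q) :
    Slm3 k' W (fun σ : Sep F ≃ₐ[F] Sep F => act W (rs K σ) R - R) := by
  have h0 : Slm3 k' W f := by
    refine ⟨⟨?_, fun σ τ => by rw [hf0, hf0, hf0, map_zero, add_zero]⟩, fun σ => by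
      rw [hf0, smul_zero], hf, fun τ => ⟨0, ⟨0, by rw [smul_zero]⟩, fun σ σ' _ => by
        rw [hf0, hf0, map_zero, map_zero, sub_self]⟩⟩
    have : f = fun _ => 0 := funext hf0
    rw [this]
    exact IsLocallyConstant.const 0
  have h1 := h0.sub (R := -R) (Q := -Q) (by rw [smul_neg, hR, map_neg])
  have h2 : (fun σ => f σ - (act W (rs K σ) (-R) - -R)) =
      fun σ => act W (rs K σ) R - R := by
    funext σ
    rw [hf0, map_neg]; abel
  rwa [h2] at h1

end sel

end Pool.Agent.Helper23K9.Q3
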