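import Pool.Agent.Helper23K9.Q3.Main

/-!
The criterion over a field which need not contain the cube roots of unity.
-/

set_option autoImplicit false
set_option linter.all false

open Polynomial IsDedekindDomain WeierstrassCurve WeierstrassCurve.Affine
open scoped Classical

namespace Pool.Agent.Helper23K9.Q3

open Pool.Agent.TH115.GD (vInf pl Pt act incl rs ak IsCoc LocTriv Sep Comp IsTower Preserves
  LocallyTrivial act_act act_inj preserves sepKΩ exists_conj fixed_point)
open Pool.Agent.Helper7K9.T3 (TateAt IsTateClass IsTC IsInv tate_of_part crv3 isE3 third cube_roots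
  three_smul)
open Pool.Agent.Helper23K9.T5 (exists_mid chg chg_act chg_act' chg_class rs_restrict)
open Pool.Agent.Helper23K9.Q5

theorem crv3_map {K K1 : Type} [Field K] [Field K1] [Algebra K K1] (a b : K) :
    crv3 (algebraMap K K1 a) (algebraMap K K1 b) = (crv3 a b).map (algebraMap K K1) := by
  unfold crv3 WeierstrassCurve.map
  simp

section tran

variable {k k1 k' K F : Type} [Field k] [Field k1] [Field k'] [Algebra k k1]
    [Algebra k1 k'] [Algebra k k'] [IsScalarTower k k1 k'] [Field K] [Algebra k[X] K]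
    [Field F] [Algebra k'[X] F] [IsFractionRing k'[X] F] [Algebra K F]

/-- **The criterion for quadratic twists**, with conditions over `k1`. -/
theorem tate_tw3 (hT : IsTower k k' K F) (h2k : (2 : k) ≠ 0) (h3k : (3 : k) ≠ 0) {z0 : k1}
    (hz0 : z0 ^ 2 + z0 + 1 = 0) {pa pb : k[X]} {pa1 pb1 : k1[X]}
    (ha1 : pa1 = pa.map (algebraMap k k1)) (hb1 : pb1 = pb.map (algebraMap k k1))
    (hpb : pb1 ≠ 0) (hpd : pa1 ^ 3 - 27 * pb1 ≠ 0)
    (hs1 : ∀ π : k1[X], Irreducible π → π ∣ pb1 → π.Separable)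
    (hs2 : ∀ π : k1[X], Irreducible π → π ∣ pa1 ^ 3 - 27 * pb1 → π.Separable)
    {a b d : K} (ea : a = algebraMap k[X] K pa) (eb : b = algebraMap k[X] K pb)
    {c0 t00 : k} (hc0 : c0 ≠ 0) (ed : d = algebraMap k[X] K (C c0 * (X - C t00)))
    (hr1 : ∀ ρ : k', ρ ≠ 0 → (pb1.map (algebraMap k1 k')).eval
      ((algebraMap k k' c0)⁻¹ * ρ ^ 2 + algebraMap k k' t00) = 0 → ∃ s0 : k' ≃ₐ[k1] k', s0 ρ = -ρ)
    (hr2 : ∀ ρ : k', ρ ≠ 0 → ((pa1 ^ 3 - 27 * pb1).map (algebraMap k1 k')).eval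
      ((algebraMap k k' c0)⁻¹ * ρ ^ 2 + algebraMap k k' t00) = 0 →
      ∃ s0 : k' ≃ₐ[k1] k', s0 ρ = -ρ) :
    TateAt (F := F) 3 k' (qtw d (crv3 a b)) ∧
      ∀ P : Pt (qtw d (crv3 a b)) K, ∃! Q : Pt (qtw d (crv3 a b)) K, 3 • Q = P := by
  haveI := hT.sep
  haveI : IsFractionRing k[X] K := hT.fracK
  haveI : IsSepClosure K (Sep F) := sepKΩ hT.map
  haveI : Algebra.IsSeparable K (Sep F) := IsSepClosure.separable
  haveI : IsGalois K (Sep F) := inferInstance
  have hpres : Preserves K F (Sep F) := preserves hT.map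
  obtain ⟨K1, iK1, iX1, iKK1, iK1F, tow, hT1, hpol⟩ := exists_mid (k1 := k1) hT
  haveI := hT1.fracK
  haveI := hT1.sep
  have h31 : (3 : k1) ≠ 0 := by
    have h1 : (3 : k1) = algebraMap k k1 3 := (map_ofNat _ _).symm
    rw [h1]
    exact (_root_.map_ne_zero _).2 h3k
  have h21 : (2 : k1) ≠ 0 := by
    have h1 : (2 : k1) = algebraMap k k1 2 := (map_ofNat _ _).symm
    rw [h1]
    exact (_root_.map_ne_zero _).2 h2k
  have ea1 : algebraMap K K1 a = algebraMap k1[X] K1 pa1 := by rw [ea, hpol, ha1]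
  have eb1 : algebraMap K K1 b = algebraMap k1[X] K1 pb1 := by rw [eb, hpol, hb1]
  have ed1 : algebraMap K K1 d = algebraMap k1[X] K1 (C (algebraMap k k1 c0) *
      (X - C (algebraMap k k1 t00))) := by
    rw [ed, hpol, Polynomial.map_mul, Polynomial.map_sub, map_C, map_C, map_X]
  have hW : qtw (algebraMap K K1 d) (crv3 (algebraMap K K1 a) (algebraMap K K1 b)) =
      (qtw d (crv3 a b)).map (algebraMap K K1) := by
    rw [crv3_map, qtw_map]
  have hcc : algebraMap k1 k' (algebraMap k k1 c0) = algebraMap k k' c0 :=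
    (IsScalarTower.algebraMap_apply k k1 k' c0).symm
  have htt : algebraMap k1 k' (algebraMap k k1 t00) = algebraMap k k' t00 :=
    (IsScalarTower.algebraMap_apply k k1 k' t00).symm
  obtain ⟨key, tor⟩ := key_tw3 hT1 h21 h31 hz0 hpb hpd hs1 hs2 ea1 eb1
    ((_root_.map_ne_zero (algebraMap k k1)).2 hc0) ed1 (by rw [hcc, htt]; exact hr1)
    (by rw [hcc, htt]; exact hr2)
  have inj1 := IsFractionRing.injective k1[X] K1
  have h3K1 : (3 : K1) ≠ 0 := by
    have : (3 : K1) = algebraMap k1[X] K1 (C 3) := by rw [map_ofNat, map_ofNat]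
    rw [this, Ne, map_eq_zero_iff _ inj1]
    exact C_ne_zero.2 h31
  have hbK1 : algebraMap K K1 b ≠ 0 := by
    rw [eb1, Ne, map_eq_zero_iff _ inj1]
    exact hpb
  have hdK1 : (algebraMap K K1 a) ^ 3 - 27 * algebraMap K K1 b ≠ 0 := by
    have : (algebraMap K K1 a) ^ 3 - 27 * algebraMap K K1 b =
        algebraMap k1[X] K1 (pa1 ^ 3 - 27 * pb1) := by
      rw [ea1, eb1, map_sub, map_pow, map_mul, map_ofNat]
    rw [this, Ne, map_eq_zero_iff _ inj1]
    exact hpd
  have h := isE3 (algebraMap K K1 a) (algebraMap K K1 b) (Sep F) h3K1 hbK1 hdK1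
  have hd0 : algebraMap K K1 d ≠ 0 := by
    rw [ed1, Ne, map_eq_zero_iff _ inj1]
    exact mul_ne_zero (C_ne_zero.2 ((_root_.map_ne_zero _).2 hc0)) (X_sub_C_ne_zero _)
  have hE : (crv3 (algebraMap K K1 a) (algebraMap K K1 b)).Δ ≠ 0 := by
    rw [crv3_disc]
    exact mul_ne_zero (pow_ne_zero 3 hbK1) hdK1
  have h2Ω : (2 : Sep F) ≠ 0 := by
    have h2K : (2 : K1) ≠ 0 := by
      have : (2 : K1) = algebraMap k1[X] K1 (C 2) := by rw [map_ofNat, map_ofNat]
      rw [this, Ne, map_eq_zero_iff _ inj1]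
      exact C_ne_zero.2 h21
    have : (2 : Sep F) = algebraMap K1 (Sep F) 2 := (map_ofNat _ _).symm
    rw [this]
    exact (_root_.map_ne_zero _).2 h2K
  haveI : NeZero ((2 : ℕ) : Sep F) := ⟨by exact_mod_cast h2Ω⟩
  obtain ⟨r, hr⟩ := IsSepClosed.exists_pow_nat_eq (algebraMap K1 (Sep F) (algebraMap K K1 d)) 2
  have hr0 : r ≠ 0 := by
    rintro rfl
    rw [zero_pow (by norm_num)] at hr
    exact (_root_.map_ne_zero _).2 hd0 hr.symm
  have h3r := cube_roots (Sep F) h.three
  have hζ : (algebraMap K1 (Sep F) (algebraMap k1[X] K1 (C z0))) ^ 2 +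
      algebraMap K1 (Sep F) (algebraMap k1[X] K1 (C z0)) + 1 = 0 := by
    have e : (C z0 : k1[X]) ^ 2 + C z0 + 1 = 0 := by
      rw [← C_pow, ← C_add, ← C_1, ← C_add, hz0, C_0]
    have := congrArg (fun p => algebraMap K1 (Sep F) (algebraMap k1[X] K1 p)) e
    simp only [map_add, map_pow, map_one, map_zero] at this
    exact this
  -- division by three
  have hdiv1 : ∀ X : Pt (qtw (algebraMap K K1 d) (crv3 (algebraMap K K1 a) (algebraMap K K1 b)))
      (Sep F), ∃ Y : Pt (qtw (algebraMap K K1 d) (crv3 (algebraMap K K1 a) (algebraMap K K1 b)))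
      (Sep F), 3 • Y = X := by
    intro X
    obtain ⟨Y, hY⟩ := third h hζ h3r ((tw hE h2Ω hr hr0).symm X)
    refine ⟨tw hE h2Ω hr hr0 Y, ?_⟩
    rw [← map_nsmul, three_smul]
    rw [hY, AddEquiv.apply_symm_apply]
  have hdiv : ∀ X : Pt (qtw d (crv3 a b)) (Sep F), ∃ Y : Pt (qtw d (crv3 a b)) (Sep F),
      3 • Y = X := by
    intro X
    obtain ⟨Y, hY⟩ := hdiv1 (chg hW (Sep F) X)
    refine ⟨(chg hW (Sep F)).symm Y, ?_⟩
    apply (chg hW (Sep F)).injective
    rw [map_nsmul, AddEquiv.apply_symm_apply, hY]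
  constructor
  · refine tate_of_part hdiv fun c hc => ?_
    obtain ⟨H, hH, hcH⟩ := key _ (Slm3.ofTate (chg_class hW hc))
    refine ⟨0, (chg hW (Sep F)).symm H, ?_, fun σ => ?_⟩
    · apply (chg hW (Sep F)).injective
      rw [map_nsmul, AddEquiv.apply_symm_apply, hH, map_zero, map_zero]
    · apply (chg hW (Sep F)).injective
      have h1 := hcH σ
      have h2 := chg_act hW (L := Sep F) (L' := Sep F) (rs K1 σ) ((chg hW (Sep F)).symm H)
      rw [rs_restrict, AddEquiv.apply_symm_apply] at h2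
      rw [h1, map_sub, AddEquiv.apply_symm_apply, h2]
  · intro P
    have hrs : ∀ (σ : Sep F ≃ₐ[F] Sep F) (Y : Pt (qtw d (crv3 a b)) (Sep F)),
        chg hW (Sep F) (act (qtw d (crv3 a b)) (rs K σ) Y) =
          act (qtw (algebraMap K K1 d) (crv3 (algebraMap K K1 a) (algebraMap K K1 b))) (rs K1 σ)
            (chg hW (Sep F) Y) :=
      fun σ Y => chg_act' hW (rs K1 σ) (rs K σ) (fun _ => rfl) Y
    have htor : ∀ Y : Pt (qtw d (crv3 a b)) (Sep F),
        (∀ σ : Sep F ≃ₐ[F] Sep F, act (qtw d (crv3 a b)) (rs K σ) Y = Y) → 3 • Y = 0 → Y = 0 := by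
      intro Y hY h0
      have h1 := tor (chg hW (Sep F) Y) (fun σ => by rw [← hrs, hY])
        (by rw [← map_nsmul, h0, map_zero])
      exact (chg hW (Sep F)).injective (h1.trans (map_zero _).symm)
    obtain ⟨R, hR⟩ := hdiv1 (chg hW (Sep F) (act (qtw d (crv3 a b)) (incl K K (Sep F)) P))
    have hR1 : 3 • R = act (qtw (algebraMap K K1 d) (crv3 (algebraMap K K1 a)
        (algebraMap K K1 b))) (incl K1 K1 (Sep F))
        (chg hW K1 (act (qtw d (crv3 a b)) (incl K K K1) P)) := by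
      have h1 : ((incl K1 K1 (Sep F)).restrictScalars K).comp (incl K K K1) = incl K K (Sep F) :=
        AlgHom.ext fun x => (IsScalarTower.algebraMap_apply K K1 (Sep F) x).symm
      rw [← chg_act, act_act, h1, hR]
    obtain ⟨H, hH, hcH⟩ := key _ (Slm3.ofPt (lt_zero _) (fun _ => rfl) hR1)
    obtain ⟨Y, hY⟩ : ∃ Y, Y = (chg hW (Sep F)).symm (R - H) := ⟨_, rfl⟩
    have hYc : chg hW (Sep F) Y = R - H := by rw [hY, AddEquiv.apply_symm_apply]
    have hY5 : 3 • Y = act (qtw d (crv3 a b)) (incl K K (Sep F)) P := by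
      apply (chg hW (Sep F)).injective
      rw [map_nsmul, hYc, smul_sub, hH, sub_zero, hR]
    have hYF : ∀ σ : Sep F ≃ₐ[F] Sep F, act (qtw d (crv3 a b)) (rs K σ) Y = Y := by
      intro σ
      apply (chg hW (Sep F)).injective
      rw [hrs, hYc, map_sub]
      have h1 := hcH σ
      rw [sub_eq_sub_iff_sub_eq_sub] at h1
      exact h1
    have hYK : ∀ τ : Sep F ≃ₐ[K] Sep F, act (qtw d (crv3 a b)) (ak τ) Y = Y := by
      intro τ
      rw [← sub_eq_zero]
      apply htor
      · intro σ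
        obtain ⟨σ', hσ'⟩ := exists_conj hpres τ σ
        have h1 : (ak τ).comp (rs K σ') = (rs K σ).comp (ak τ) := AlgHom.ext fun x => hσ' x
        rw [map_sub, hYF, act_act, ← h1, ← act_act, hYF]
      · have h1 : (ak τ).comp (incl K K (Sep F)) = incl K K (Sep F) :=
          AlgHom.ext fun x => τ.commutes x
        rw [smul_sub, ← map_nsmul, hY5, act_act, h1, sub_self]
    obtain ⟨Q, hQ⟩ := fixed_point (K := K) (F := K) (Ω := Sep F) (qtw d (crv3 a b)) Y
      fun τ => hYK τ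
    refine ⟨Q, ?_, fun Q' hQ' => ?_⟩
    · apply act_inj (qtw d (crv3 a b)) (incl K K (Sep F))
      rw [map_nsmul, hQ, hY5]
    · apply act_inj (qtw d (crv3 a b)) (incl K K (Sep F))
      rw [hQ, ← sub_eq_zero]
      apply htor
      · intro σ
        have h1 : (rs K σ).comp (incl K K (Sep F)) = incl K K (Sep F) :=
          AlgHom.ext fun x => (rs K σ).commutes x
        rw [map_sub, hYF, act_act, h1]
      · have hQ'' : 3 • Q' = P := hQ'
        rw [smul_sub, ← map_nsmul, hQ'', hY5, sub_self]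

end tran

end Pool.Agent.Helper23K9.Q3
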